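import Pool.Agent.Lib.MP_79efce_co.OwnB

/-!
# Edge-ordered forests of order chromatic number two with superpolylogarithmic density

`EOGraph`, `EOGraph.Contains`, `exLt` and `orderChromaticNumber` are the notions of the problem;
`P9` is the path with 9 vertices whose 8 edges have the ranks `6, 1, 2, 4, 5, 7, 8, 3`.
-/

set_option autoImplicit false

namespace Pool.Agent.Results.MP_79efce_co.PathNine

open Pool.Agent.Lib.MP_79efce_co

/-- The edge-ordered path `P9 = P_9^{61245783}` has order chromatic number two, and for all large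
`n` the largest number `exLt n P9` of edges of an edge-ordered graph on `n` vertices avoiding `P9`
is at least `n * 2 ^ (√(log n) / 2)`; so it is larger than `C n (log n) ^ c` for all real `c, C`
and all large `n`, although it is `o(n ^ 2)`. In particular it is not true that for every
edge-ordered forest `F` with order chromatic number two there is a constant `c` with
`exLt n F = O(n (log n) ^ c)`. -/
theorem result :
    (P9.graph.IsAcyclic ∧ orderChromaticNumber P9 = 2 ∧
      (∃ N : ℕ, ∀ n : ℕ, N ≤ n → (n : ℝ) * 2 ^ (Real.sqrt (Real.log n) / 2) ≤ exLt n P9) ∧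
      (∀ c C : ℝ, ∃ N : ℕ, ∀ n : ℕ, N ≤ n → C * (n : ℝ) * Real.log n ^ c < exLt n P9) ∧
      (∀ ε : ℝ, 0 < ε → ∃ N : ℕ, ∀ n : ℕ, N ≤ n → (exLt n P9 : ℝ) ≤ ε * (n : ℝ) ^ 2)) ∧
    ¬ (∀ (k : ℕ) (F : EOGraph (Fin k)), F.graph ≠ ⊥ → F.graph.IsAcyclic →
        orderChromaticNumber F = 2 →
        ∃ c C : ℝ, ∀ n : ℕ, 2 ≤ n → (exLt n F : ℝ) ≤ C * (n : ℝ) * Real.log n ^ c) := by
  refine ⟨⟨path_acyclic, orderChromaticNumber_P9, lower_bound, beats_polylog, ?_⟩, ?_⟩
  · intro ε hε
    obtain ⟨N, hN⟩ := dense_contains ε hε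
    refine ⟨N, fun n hn => ?_⟩
    have hmem : exLt n P9 ∈ {m | ∃ G : EOGraph (Fin n), ¬ G.Contains P9 ∧
        G.graph.edgeSet.ncard = m} := by
      apply Nat.sSup_mem
      · obtain ⟨e⟩ : Nonempty ((⊥ : SimpleGraph (Fin n)).edgeSet ≃
          Fin (Nat.card (⊥ : SimpleGraph (Fin n)).edgeSet)) := ⟨Finite.equivFin _⟩
        refine ⟨_, ⟨⊥, LinearOrder.lift' e e.injective⟩, ?_, rfl⟩
        rintro ⟨φ, -, -⟩
        have h01 : (SimpleGraph.pathGraph 9).Adj (0 : Fin 9) 1 := edge_mem 0
        exact φ.map_adj h01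
      · refine ⟨(Set.univ : Set (Sym2 (Fin n))).ncard, ?_⟩
        rintro m ⟨G', -, rfl⟩
        exact Set.ncard_le_ncard (Set.subset_univ _) (Set.toFinite _)
    obtain ⟨G, hG, hcard⟩ := hmem
    obtain ⟨M, hM⟩ := exists_labels G.graph G.ord
    rw [← hcard]
    exact hN n hn G.graph M (injOn_of_labels G.graph G.ord M hM)
      (fun h => hG ((contains_iff G.graph G.ord M hM).2 h))
  · intro h
    have hne : P9.graph ≠ ⊥ := by
      intro h0
      have h01 : (SimpleGraph.pathGraph 9).Adj (0 : Fin 9) 1 := edge_mem 0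
      change (P9.graph).Adj 0 1 at h01
      rw [h0] at h01
      exact h01
    obtain ⟨c, C, hC⟩ := h 9 P9 hne path_acyclic orderChromaticNumber_P9
    obtain ⟨N, hN⟩ := beats_polylog c C
    exact absurd (hC (max N 2) (le_max_right _ _)) (not_le.2 (hN _ (le_max_left _ _)))

end Pool.Agent.Results.MP_79efce_co.PathNine
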